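import Pool.Agent.Helper458.Dav.P_trunc_diff
import Pool.Agent.Y245.Dav.Approx

set_option autoImplicit false

open MeasureTheory Filter Topology Set Metric
open scoped Real ENNReal

namespace Pool.Agent.Y245.Dav

open Pool.Dav

universe u

variable {E : Type u} [NormedAddCommGroup E] [NormedSpace ℝ E]

/-- Truncated Hilbert transform `(1/π) ∫_{|x-y|>ε} f(y)/(x-y) dy` of a vector valued function. -/
noncomputable def truncHE (f : ℝ → E) (ε x : ℝ) : E :=
  (π⁻¹ : ℝ) • ∫ y in {y : ℝ | ε < |x - y|}, (x - y)⁻¹ • f y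

/-- The principal value integral defining `Hf(x)` exists (in norm) and equals `v`. -/
def HasHilbertE (f : ℝ → E) (x : ℝ) (v : E) : Prop :=
  Tendsto (fun ε : ℝ => truncHE f ε x) (𝓝[>] (0 : ℝ)) (𝓝 v)

open Classical in
/-- The Hilbert transform `Hf(x)`: the principal value where it exists, `0` elsewhere. -/
noncomputable def hilbertE (f : ℝ → E) (x : ℝ) : E :=
  if h : ∃ v, HasHilbertE f x v then h.choose else 0

/-- Conjugate Poisson integral of a vector valued function. -/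
noncomputable def QQE (f : ℝ → E) (δ x : ℝ) : E :=
  ∫ t : ℝ, (π⁻¹ * ((x - t) / ((x - t) ^ 2 + δ ^ 2))) • f t

/-- Poisson integral of a vector valued function. -/
noncomputable def PPE (f : ℝ → E) (δ x : ℝ) : E :=
  ∫ t : ℝ, (π⁻¹ * (δ / ((x - t) ^ 2 + δ ^ 2))) • f t

lemma int_smul {g : ℝ → ℝ} {f : ℝ → E} (hf : Integrable f) (hg : Measurable g) {c : ℝ}
    (hc : ∀ t, |g t| ≤ c) : Integrable fun t => g t • f t := by
  refine (hf.norm.const_mul c).mono' (hg.aestronglyMeasurable.smul hf.aestronglyMeasurable) ?_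
  refine Filter.Eventually.of_forall fun t => ?_
  rw [norm_smul, Real.norm_eq_abs]
  exact mul_le_mul_of_nonneg_right (hc t) (norm_nonneg _)

theorem trunc_diffE [CompleteSpace E] (f : ℝ → E) (hf : Integrable f) (x δ : ℝ) (hδ : 0 < δ) :
    ‖QQE f δ x - truncHE f δ x‖ ≤ π⁻¹ * ∫ t : ℝ, (δ / ((x - t) ^ 2 + δ ^ 2)) * ‖f t - f x‖ := by
  have hpi : (0 : ℝ) < π⁻¹ := by positivity
  have hb1 : ∀ t : ℝ, |(x - t) / ((x - t) ^ 2 + δ ^ 2)| ≤ δ⁻¹ := by
    intro t
    have h1 : 0 < (x - t) ^ 2 + δ ^ 2 := by positivity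
    rw [abs_div, abs_of_pos h1, inv_eq_one_div, div_le_div_iff₀ h1 hδ]
    rw [← sq_abs (x - t)]
    nlinarith [sq_nonneg (|x - t| - δ), abs_nonneg (x - t)]
  have hI1 : Integrable fun t : ℝ => ((x - t) / ((x - t) ^ 2 + δ ^ 2)) • f t :=
    int_smul hf (by fun_prop) hb1
  have hI2 : Integrable fun t : ℝ => (if δ < |x - t| then (x - t)⁻¹ else 0 : ℝ) • f t := by
    refine int_smul hf ?_ (c := δ⁻¹) ?_
    · exact Measurable.ite (measurableSet_lt measurable_const (by fun_prop)) (by fun_prop)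
        measurable_const
    · intro t
      split_ifs with h
      · rw [abs_inv]
        exact inv_anti₀ hδ h.le
      · rw [abs_zero]
        positivity
  have hQ : QQE f δ x = (π⁻¹ : ℝ) • ∫ t : ℝ, ((x - t) / ((x - t) ^ 2 + δ ^ 2)) • f t := by
    unfold QQE
    rw [← integral_smul]
    congr 1
    ext t
    rw [smul_smul]
  have hT : truncHE f δ x = (π⁻¹ : ℝ) •
      ∫ t : ℝ, (if δ < |x - t| then (x - t)⁻¹ else 0 : ℝ) • f t := by
    unfold truncHE
    have hset : MeasurableSet {y : ℝ | δ < |x - y|} :=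
      measurableSet_lt measurable_const (by fun_prop)
    rw [← integral_indicator hset]
    congr 2
    ext t
    by_cases h : δ < |x - t|
    · rw [Set.indicator_of_mem (show t ∈ {y : ℝ | δ < |x - y|} from h), if_pos h]
    · rw [Set.indicator_of_notMem (show t ∉ {y : ℝ | δ < |x - y|} from h), if_neg h, zero_smul]
  have hqi : Integrable fun t : ℝ => tdq δ (x - t) := (td_q_int δ hδ).comp_sub_left x
  have hI3 : Integrable fun t : ℝ => tdq δ (x - t) • f x := hqi.smul_const _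
  have hz : ∫ t : ℝ, tdq δ (x - t) • f x = 0 := by
    rw [integral_smul_const, td_q_zero, zero_smul]
  have hdiff : QQE f δ x - truncHE f δ x =
      (π⁻¹ : ℝ) • ∫ t : ℝ, tdq δ (x - t) • (f t - f x) := by
    have h1 : ∫ t : ℝ, tdq δ (x - t) • (f t - f x) =
        (∫ t : ℝ, ((x - t) / ((x - t) ^ 2 + δ ^ 2)) • f t) -
        ∫ t : ℝ, (if δ < |x - t| then (x - t)⁻¹ else 0 : ℝ) • f t := by
      have h2 : ∀ t : ℝ, tdq δ (x - t) • (f t - f x) =
          (((x - t) / ((x - t) ^ 2 + δ ^ 2)) • f t -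
          (if δ < |x - t| then (x - t)⁻¹ else 0 : ℝ) • f t) - tdq δ (x - t) • f x := by
        intro t
        unfold tdq
        rw [smul_sub, sub_smul]
      simp_rw [h2]
      have hI12 : Integrable fun t : ℝ => ((x - t) / ((x - t) ^ 2 + δ ^ 2)) • f t -
          (if δ < |x - t| then (x - t)⁻¹ else 0 : ℝ) • f t := hI1.sub hI2
      rw [integral_sub hI12 hI3, integral_sub hI1 hI2, hz, sub_zero]
    rw [hQ, hT, h1, smul_sub]
  rw [hdiff, norm_smul, Real.norm_eq_abs, abs_of_pos hpi]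
  apply mul_le_mul_of_nonneg_left _ hpi.le
  refine (norm_integral_le_integral_norm _).trans ?_
  have hKi : Integrable fun t : ℝ => δ / ((x - t) ^ 2 + δ ^ 2) := (td_K_int δ hδ).comp_sub_left x
  have hKb : ∀ t : ℝ, ‖δ / ((x - t) ^ 2 + δ ^ 2)‖ ≤ δ⁻¹ := by
    intro t
    have h1 : 0 < (x - t) ^ 2 + δ ^ 2 := by positivity
    rw [Real.norm_eq_abs, abs_of_nonneg (by positivity), inv_eq_one_div,
      div_le_div_iff₀ h1 hδ]
    nlinarith [sq_nonneg (x - t)]
  have hJ : Integrable fun t : ℝ => (δ / ((x - t) ^ 2 + δ ^ 2)) * ‖f t - f x‖ := by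
    have h1 : Integrable fun t : ℝ => (δ / ((x - t) ^ 2 + δ ^ 2)) * ‖f t‖ +
        (δ / ((x - t) ^ 2 + δ ^ 2)) * ‖f x‖ := by
      refine Integrable.add ?_ (hKi.mul_const _)
      exact hf.norm.bdd_mul (c := δ⁻¹) hKi.aestronglyMeasurable
        (Filter.Eventually.of_forall hKb)
    refine h1.mono' ?_ ?_
    · refine hKi.aestronglyMeasurable.mul ?_
      exact (hf.aestronglyMeasurable.sub aestronglyMeasurable_const).norm
    · refine Filter.Eventually.of_forall fun t => ?_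
      have h3 : 0 ≤ δ / ((x - t) ^ 2 + δ ^ 2) := by positivity
      rw [norm_mul, norm_norm, Real.norm_eq_abs, abs_of_nonneg h3, ← mul_add]
      exact mul_le_mul_of_nonneg_left (norm_sub_le _ _) h3
  refine integral_mono_of_nonneg (Filter.Eventually.of_forall fun t => norm_nonneg _) hJ ?_
  refine Filter.Eventually.of_forall fun t => ?_
  simp only
  rw [norm_smul, Real.norm_eq_abs]
  exact mul_le_mul_of_nonneg_right (td_q_bound δ hδ (x - t)) (norm_nonneg _)

theorem trunc_aeE [CompleteSpace E] (f : ℝ → E) (hf : Integrable f) :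
    ∀ᵐ x : ℝ, Tendsto (fun δ : ℝ => QQE f δ x - truncHE f δ x) (𝓝[>] (0 : ℝ)) (𝓝 0) := by
  filter_upwards [approxE f hf] with x hx
  have h1 : Tendsto (fun δ : ℝ => π⁻¹ * ∫ t : ℝ, (δ / ((x - t) ^ 2 + δ ^ 2)) * ‖f t - f x‖)
      (𝓝[>] (0 : ℝ)) (𝓝 0) := by
    have := hx.const_mul (π⁻¹)
    rwa [mul_zero] at this
  refine squeeze_zero_norm' ?_ h1
  filter_upwards [self_mem_nhdsWithin] with δ hδ
  exact trunc_diffE f hf x δ hδ

/-! ### the conjugate Poisson integral: continuity and linearity -/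

lemma qk_meas (δ x : ℝ) : Measurable (fun t : ℝ => π⁻¹ * ((x - t) / ((x - t) ^ 2 + δ ^ 2))) := by
  fun_prop

lemma qk_bd (δ : ℝ) (hδ : 0 < δ) (x t : ℝ) :
    |π⁻¹ * ((x - t) / ((x - t) ^ 2 + δ ^ 2))| ≤ π⁻¹ * (1 / (2 * δ)) := by
  set u := x - t with hu
  rw [abs_mul, abs_of_pos (inv_pos.2 Real.pi_pos)]
  apply mul_le_mul_of_nonneg_left _ (inv_pos.2 Real.pi_pos).le
  rw [abs_div, abs_of_pos (show 0 < u ^ 2 + δ ^ 2 by positivity),
    div_le_div_iff₀ (by positivity) (by positivity)]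
  nlinarith [sq_nonneg (|u| - δ), sq_abs u]

lemma pk_meas (δ x : ℝ) : Measurable (fun t : ℝ => π⁻¹ * (δ / ((x - t) ^ 2 + δ ^ 2))) := by
  fun_prop

lemma pk_bd (δ : ℝ) (hδ : 0 < δ) (x t : ℝ) :
    |π⁻¹ * (δ / ((x - t) ^ 2 + δ ^ 2))| ≤ π⁻¹ * (1 / δ) := by
  rw [abs_mul, abs_of_pos (inv_pos.2 Real.pi_pos), abs_of_nonneg (by positivity)]
  refine mul_le_mul_of_nonneg_left ?_ (inv_pos.2 Real.pi_pos).le
  rw [div_le_div_iff₀ (by positivity) hδ]
  nlinarith [sq_nonneg (x - t)]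

lemma QQE_int (f : ℝ → E) (hf : Integrable f) (δ : ℝ) (hδ : 0 < δ) (x : ℝ) :
    Integrable fun t : ℝ => (π⁻¹ * ((x - t) / ((x - t) ^ 2 + δ ^ 2))) • f t :=
  int_smul hf (qk_meas δ x) (qk_bd δ hδ x)

lemma PPE_int (f : ℝ → E) (hf : Integrable f) (δ : ℝ) (hδ : 0 < δ) (x : ℝ) :
    Integrable fun t : ℝ => (π⁻¹ * (δ / ((x - t) ^ 2 + δ ^ 2))) • f t :=
  int_smul hf (pk_meas δ x) (pk_bd δ hδ x)

lemma QQE_sub (f g : ℝ → E) (hf : Integrable f) (hg : Integrable g) (δ : ℝ) (hδ : 0 < δ) (x : ℝ) :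
    ‖QQE f δ x - QQE g δ x‖ ≤ π⁻¹ * (1 / (2 * δ)) * ∫ t, ‖f t - g t‖ := by
  unfold QQE
  rw [← integral_sub (QQE_int f hf δ hδ x) (QQE_int g hg δ hδ x), ← integral_const_mul]
  refine (norm_integral_le_integral_norm _).trans ?_
  refine integral_mono_of_nonneg (Filter.Eventually.of_forall fun t => norm_nonneg _)
    ((hf.sub hg).norm.const_mul _) (Filter.Eventually.of_forall fun t => ?_)
  simp only
  rw [← smul_sub, norm_smul, Real.norm_eq_abs]
  exact mul_le_mul_of_nonneg_right (qk_bd δ hδ x t) (norm_nonneg _)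

lemma QQE_smul (f : ℝ → E) (c δ x : ℝ) : QQE (fun t => c • f t) δ x = c • QQE f δ x := by
  unfold QQE
  rw [← integral_smul]
  congr 1
  ext t
  rw [smul_comm]

end Pool.Agent.Y245.Dav
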