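import Pool.Agent.Helper458.Dav.P_level_bdd
import Pool.Agent.Y245.Dav.TruncE

set_option autoImplicit false

open MeasureTheory Filter Topology Set Metric
open scoped Real ENNReal

namespace Pool.Agent.Y245.Dav

open Pool.Dav

universe u

/-! ### the majorant, in terms of `w` only -/

theorem V_upper_w (w : ℂ) (X Y : ℝ) (hre : w.re = X - Y) (hnorm : ‖w‖ ≤ X + Y) :
    V w ≤ √X + U0 ∧ (1 ≤ √Y → V w ≤ √X) := by
  have hU0 : 0 ≤ U0 := by
    have h1 := G_vert (1 / 2) (by rw [abs_of_pos] <;> norm_num)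
    have h2 := h1.1.trans h1.2
    rw [abs_of_pos (by norm_num : (0 : ℝ) < 1 / 2)] at h2
    linarith
  have habs : |w.re| ≤ ‖w‖ := Complex.abs_re_le_norm w
  have h3 := abs_le.1 habs
  have hp0 : 0 ≤ (‖w‖ + w.re) / 2 := by linarith [h3.1]
  have hq0 : 0 ≤ (‖w‖ - w.re) / 2 := by linarith [h3.2]
  have hpX : √((‖w‖ + w.re) / 2) ≤ √X := by
    apply Real.sqrt_le_sqrt
    rw [hre]
    linarith
  rw [V_rho w]
  set p := √((‖w‖ + w.re) / 2) with hp
  set q := √((‖w‖ - w.re) / 2) with hq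
  have hp2 : p ^ 2 = (‖w‖ + w.re) / 2 := Real.sq_sqrt hp0
  have hq2 : q ^ 2 = (‖w‖ - w.re) / 2 := Real.sq_sqrt hq0
  have hpn : 0 ≤ p := Real.sqrt_nonneg _
  have hqn : 0 ≤ q := Real.sqrt_nonneg _
  split_ifs with hq1
  · have hqa : |q| < 1 := by rwa [abs_of_nonneg hqn]
    have g1 := (G_line p q hqa).2
    have g2 := (G_vert q hqa).2
    rw [abs_of_nonneg hpn] at g1
    refine ⟨by linarith, fun hY => ?_⟩
    have him : ((p : ℂ) + (q : ℂ) * Complex.I).im = q := by simp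
    have hree : ((p : ℂ) + (q : ℂ) * Complex.I).re = p := by simp
    have g3 := (G_bounds ((p : ℂ) + (q : ℂ) * Complex.I) (by rw [him]; exact hqa)).2
    rw [him, hree] at g3
    refine g3.trans ?_
    apply Real.sqrt_le_sqrt
    have hY2 : 1 ≤ Y := by
      by_contra hcon
      rw [not_le] at hcon
      have : √Y < 1 := by
        rw [Real.sqrt_lt' one_pos]
        linarith
      linarith
    rw [hp2, hq2, hre] at *
    linarith
  · exact ⟨by linarith, fun _ => hpX⟩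

theorem V_upperF {d : ℕ} (a : Fin d → ℂ) :
    V (∑ j, a j ^ 2) ≤ √(∑ j, (a j).re ^ 2) + U0 ∧
    (1 ≤ √(∑ j, (a j).im ^ 2) → V (∑ j, a j ^ 2) ≤ √(∑ j, (a j).re ^ 2)) := by
  apply V_upper_w
  · rw [Complex.re_sum, ← Finset.sum_sub_distrib]
    refine Finset.sum_congr rfl fun j _ => ?_
    rw [pow_two, Complex.mul_re]
    ring
  · refine (norm_sum_le _ _).trans ?_
    rw [← Finset.sum_add_distrib]
    refine Finset.sum_le_sum fun j _ => le_of_eq ?_
    rw [norm_pow, ← Complex.normSq_eq_norm_sq, Complex.normSq_apply]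
    ring

/-! ### the Poisson integral does not increase the norm in `L¹` -/

variable {E : Type u} [NormedAddCommGroup E] [NormedSpace ℝ E]

theorem PPE_L1 (f : ℝ → E) (hf : Integrable f) (δ : ℝ) (hδ : 0 < δ) :
    Integrable (PPE f δ) ∧ ∫ x, ‖PPE f δ x‖ ≤ ∫ x, ‖f x‖ := by
  have hk := PPk_int δ hδ
  have h1 : Integrable (PPE f δ) := by
    have h2 := hf.integrable_convolution ((ContinuousLinearMap.lsmul ℝ ℝ (E := E)).flip) hk
    refine h2.congr (Filter.Eventually.of_forall fun x => ?_)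
    show ∫ t, ((π⁻¹ * (δ / ((x - t) ^ 2 + δ ^ 2)) : ℝ)) • f t = PPE f δ x
    rfl
  refine ⟨h1, ?_⟩
  have h3 := hf.norm.integrable_convolution (ContinuousLinearMap.mul ℝ ℝ) hk
  have h4 := integral_convolution (ContinuousLinearMap.mul ℝ ℝ) (μ := volume) (ν := volume) hf.norm hk
  have h5 : ∫ x, ‖f x‖ = ∫ x, (convolution (fun t => ‖f t‖)
      (fun u : ℝ => π⁻¹ * (δ / (u ^ 2 + δ ^ 2))) (ContinuousLinearMap.mul ℝ ℝ) volume) x := by
    rw [h4, PPk_one δ hδ]
    simp
  rw [h5]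
  refine integral_mono h1.norm h3 fun x => ?_
  show ‖PPE f δ x‖ ≤ ∫ t, ‖f t‖ * (π⁻¹ * (δ / ((x - t) ^ 2 + δ ^ 2)))
  unfold PPE
  refine (norm_integral_le_integral_norm _).trans (le_of_eq ?_)
  congr 1
  funext t
  rw [norm_smul, Real.norm_of_nonneg (by positivity), mul_comm]

/-! ### coordinates -/

lemma comp_PPE {d : ℕ} (f : ℝ → EuclideanSpace ℝ (Fin d)) (hf : Integrable f) (δ x : ℝ)
    (hδ : 0 < δ) (j : Fin d) :
    (PPE f δ x) j = (cau (fun t => f t j) (x + δ * Complex.I)).re := by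
  have hfj : Integrable (fun t => f t j) :=
    (EuclideanSpace.proj j : EuclideanSpace ℝ (Fin d) →L[ℝ] ℝ).integrable_comp hf
  have h1 := (cau_eq (fun t => f t j) hfj δ x hδ).1
  have h2 : (PPE f δ x) j = ∫ t, (π⁻¹ * (δ / ((x - t) ^ 2 + δ ^ 2))) * f t j := by
    have h3 := (EuclideanSpace.proj j : EuclideanSpace ℝ (Fin d) →L[ℝ] ℝ).integral_comp_comm
      (PPE_int f hf δ hδ x)
    exact h3.symm
  have h4 : PP (fun t => ((f t j : ℝ) : ℂ)) δ x =
      ((∫ t, (π⁻¹ * (δ / ((x - t) ^ 2 + δ ^ 2))) * f t j : ℝ) : ℂ) := by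
    unfold PP
    rw [← integral_complex_ofReal]
    congr 1
    funext t
    push_cast
    ring
  rw [h2]
  rw [h4] at h1
  exact_mod_cast h1

lemma comp_QQE {d : ℕ} (f : ℝ → EuclideanSpace ℝ (Fin d)) (hf : Integrable f) (δ x : ℝ)
    (hδ : 0 < δ) (j : Fin d) :
    (QQE f δ x) j = (cau (fun t => f t j) (x + δ * Complex.I)).im := by
  have hfj : Integrable (fun t => f t j) :=
    (EuclideanSpace.proj j : EuclideanSpace ℝ (Fin d) →L[ℝ] ℝ).integrable_comp hf
  have h1 := (cau_eq (fun t => f t j) hfj δ x hδ).2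
  have h2 : (QQE f δ x) j = ∫ t, (π⁻¹ * ((x - t) / ((x - t) ^ 2 + δ ^ 2))) * f t j := by
    have h3 := (EuclideanSpace.proj j : EuclideanSpace ℝ (Fin d) →L[ℝ] ℝ).integral_comp_comm
      (QQE_int f hf δ hδ x)
    exact h3.symm
  have h4 : QQ (fun t => ((f t j : ℝ) : ℂ)) δ x =
      ((∫ t, (π⁻¹ * ((x - t) / ((x - t) ^ 2 + δ ^ 2))) * f t j : ℝ) : ℂ) := by
    unfold QQ
    rw [← integral_complex_ofReal]
    congr 1
    funext t
    push_cast
    ring
  rw [h2]
  rw [h4] at h1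
  exact_mod_cast h1

lemma norm_PPE {d : ℕ} (f : ℝ → EuclideanSpace ℝ (Fin d)) (hf : Integrable f) (δ x : ℝ)
    (hδ : 0 < δ) :
    ‖PPE f δ x‖ = √(∑ j, (cau (fun t => f t j) (x + δ * Complex.I)).re ^ 2) := by
  rw [EuclideanSpace.norm_eq]
  congr 1
  refine Finset.sum_congr rfl fun j _ => ?_
  rw [comp_PPE f hf δ x hδ j, Real.norm_eq_abs, sq_abs]

lemma norm_QQE {d : ℕ} (f : ℝ → EuclideanSpace ℝ (Fin d)) (hf : Integrable f) (δ x : ℝ)
    (hδ : 0 < δ) :
    ‖QQE f δ x‖ = √(∑ j, (cau (fun t => f t j) (x + δ * Complex.I)).im ^ 2) := by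
  rw [EuclideanSpace.norm_eq]
  congr 1
  refine Finset.sum_congr rfl fun j _ => ?_
  rw [comp_QQE f hf δ x hδ j, Real.norm_eq_abs, sq_abs]

/-! ### the level estimate for bounded support -/

theorem levelF {d : ℕ} (f : ℝ → EuclideanSpace ℝ (Fin d)) (hf : Integrable f) (R : ℝ)
    (hR : ∀ t, R < |t| → f t = 0) (δ : ℝ) (hδ : 0 < δ) :
    ENNReal.ofReal U0 * volume {x : ℝ | 1 ≤ ‖QQE f δ x‖} ≤ ENNReal.ofReal (∫ x, ‖PPE f δ x‖) := by
  have hfj : ∀ j, Integrable (fun t => f t j) := fun j =>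
    (EuclideanSpace.proj j : EuclideanSpace ℝ (Fin d) →L[ℝ] ℝ).integrable_comp hf
  have hCex : ∀ j, ∃ C : ℝ, ∀ z : ℂ, δ ≤ z.im → ‖cau (fun t => f t j) z‖ ≤ C / (1 + ‖z‖) :=
    fun j => cau_bound _ (hfj j) R (fun t ht => by rw [hR t ht]; rfl) δ hδ
  choose C hC using hCex
  obtain ⟨c, hc⟩ := V_lip
  have hc0 : 0 ≤ c := by
    have := (abs_nonneg _).trans (hc 1)
    simpa using this
  have hU0 : 0 ≤ U0 := by
    unfold U0
    apply integral_nonneg
    intro s
    have := Real.cosh_pos (π * s / 2)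
    positivity
  obtain ⟨F, hF⟩ : ∃ F : Fin d → ℂ → ℂ,
      F = fun j (z : ℂ) => cau (fun t => f t j) (z + δ * Complex.I) := ⟨_, rfl⟩
  obtain ⟨K, hK⟩ : ∃ K : ℝ, K = ∑ j, C j ^ 2 := ⟨_, rfl⟩
  have bF : ∀ j, ∀ z : ℂ, 0 ≤ z.im → ‖F j z‖ ^ 2 ≤ C j ^ 2 / (1 + ‖z‖ ^ 2) := by
    intro j
    rw [hF]
    exact level_bdd_bd _ (C j) δ hδ (hC j)
  have dF : ∀ j, ∀ z : ℂ, -δ < z.im → DifferentiableAt ℂ (F j) z := by
    intro j
    rw [hF]
    exact level_bdd_cont _ (hfj j) δ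
  obtain ⟨W, hW⟩ : ∃ W : ℂ → ℂ, W = fun z => ∑ j, F j z ^ 2 := ⟨_, rfl⟩
  have dw : ∀ z : ℂ, -δ < z.im → DifferentiableAt ℂ W z := by
    intro z hz
    rw [hW]
    exact DifferentiableAt.fun_sum fun j _ => (dF j z hz).pow 2
  have hWn : ∀ z : ℂ, 0 ≤ z.im → ‖W z‖ ≤ K / (1 + ‖z‖ ^ 2) := by
    intro z hz
    rw [hW, hK, Finset.sum_div]
    refine (norm_sum_le _ _).trans (Finset.sum_le_sum fun j _ => ?_)
    rw [norm_pow]
    exact bF j z hz
  have hcw : ContinuousOn (fun z : ℂ => V (W z) - U0) {z : ℂ | 0 ≤ z.im} := by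
    intro z hz
    have hz' : 0 ≤ z.im := hz
    exact ((V_cont.continuousAt.comp (dw z (by linarith)).continuousAt).sub
      continuousAt_const).continuousWithinAt
  have hbw : ∀ z : ℂ, 0 ≤ z.im → |V (W z) - U0| ≤ (c * K) / (1 + ‖z‖ ^ 2) := by
    intro z hz
    calc |V (W z) - U0| ≤ c * ‖W z‖ := hc _
      _ ≤ c * (K / (1 + ‖z‖ ^ 2)) := mul_le_mul_of_nonneg_left (hWn z hz) hc0
      _ = _ := by ring
  have hsw : ∀ z : ℂ, 0 < z.im → SubAt (fun z : ℂ => V (W z) - U0) z := by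
    intro z hz
    obtain ⟨r₀, hr₀, hr⟩ := V_sub W z (by
      have ho : IsOpen {z : ℂ | -δ < z.im} := isOpen_lt continuous_const Complex.continuous_im
      filter_upwards [ho.mem_nhds (show -δ < z.im by linarith)] with x hx
      exact dw x hx)
    refine ⟨min r₀ z.im, lt_min hr₀ hz, fun r hr1 hr2 => ?_⟩
    have h1 := hr r hr1 (lt_of_lt_of_le hr2 (min_le_left _ _))
    have h2 : r < z.im := lt_of_lt_of_le hr2 (min_le_right _ _)
    have hci : CircleIntegrable (fun z : ℂ => V (W z)) z r := by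
      apply ContinuousOn.circleIntegrable hr1.le
      intro x hx
      have h3 : ‖x - z‖ = r := by rwa [mem_sphere_iff_norm] at hx
      have h4 : |(x - z).im| ≤ r := h3 ▸ Complex.abs_im_le_norm _
      rw [Complex.sub_im] at h4
      have h5 := (abs_le.1 h4).1
      exact (V_cont.continuousAt.comp (dw x (by linarith)).continuousAt).continuousWithinAt
    have h6 : Real.circleAverage (fun z : ℂ => V (W z) - U0) z r =
        Real.circleAverage (fun z : ℂ => V (W z)) z r - U0 := by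
      have h7 := Real.circleAverage_sub (f₁ := fun z : ℂ => V (W z))
        (f₂ := fun _ => U0) hci (circleIntegrable_const U0 z r)
      rw [Real.circleAverage_const] at h7
      exact h7
    show V (W z) - U0 ≤ _
    rw [h6]
    linarith
  have hHP := HP _ _ hcw hbw hsw
  have hP : ∀ x : ℝ, ‖PPE f δ x‖ = √(∑ j, (F j x).re ^ 2) := by
    intro x
    rw [hF]
    exact norm_PPE f hf δ x hδ
  have hQ : ∀ x : ℝ, ‖QQE f δ x‖ = √(∑ j, (F j x).im ^ 2) := by
    intro x
    rw [hF]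
    exact norm_QQE f hf δ x hδ
  have cF : ∀ j, Continuous (fun x : ℝ => F j x) := by
    intro j
    rw [continuous_iff_continuousAt]
    intro x
    exact ContinuousAt.comp (g := F j) (f := fun x : ℝ => (x : ℂ)) (x := x)
      (dF j x (by simp [hδ])).continuousAt Complex.continuous_ofReal.continuousAt
  have cQ : Continuous (fun x : ℝ => ‖QQE f δ x‖) := by
    simp only [hQ]
    refine Real.continuous_sqrt.comp (continuous_finsetSum _ fun j _ => ?_)
    exact (Complex.continuous_im.comp (cF j)).pow 2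
  have cW : Continuous (fun x : ℝ => W x) := by
    rw [hW]
    exact continuous_finsetSum _ fun j _ => (cF j).pow 2
  obtain ⟨S, hS⟩ : ∃ S : Set ℝ, S = {x : ℝ | 1 ≤ ‖QQE f δ x‖} := ⟨_, rfl⟩
  rw [← hS]
  have hSm : MeasurableSet S := by
    rw [hS]
    exact (isClosed_le continuous_const cQ).measurableSet
  have hSb : S ⊆ Metric.closedBall 0 K := by
    intro x hx
    rw [hS] at hx
    have h1 : 1 ≤ ‖QQE f δ x‖ := hx
    rw [mem_closedBall_zero_iff, Real.norm_eq_abs]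
    have h4 : 1 ≤ ∑ j, (F j x).im ^ 2 := by
      rw [hQ, Real.one_le_sqrt] at h1
      exact h1
    have h5 : ∑ j, (F j x).im ^ 2 ≤ K / (1 + ‖(x : ℂ)‖ ^ 2) := by
      rw [hK, Finset.sum_div]
      refine Finset.sum_le_sum fun j _ => ?_
      refine le_trans ?_ (bF j x (by simp))
      rw [← sq_abs]
      exact pow_le_pow_left₀ (abs_nonneg _) (Complex.abs_im_le_norm _) 2
    have h7 : 1 ≤ K / (1 + ‖(x : ℂ)‖ ^ 2) := h4.trans h5
    rw [Complex.norm_real, Real.norm_eq_abs, le_div_iff₀ (by positivity), one_mul] at h7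
    nlinarith [abs_nonneg x, sq_nonneg (|x| - 1)]
  have hSf : volume S ≠ ⊤ := by
    apply ne_top_of_le_ne_top _ (measure_mono hSb)
    exact measure_closedBall_lt_top.ne
  have hih : Integrable (fun x : ℝ => V (W x) - U0) := by
    have hi : Integrable (fun x : ℝ => (c * K) * (1 + x ^ 2)⁻¹) :=
      integrable_inv_one_add_sq.const_mul _
    refine hi.mono' ?_ (Filter.Eventually.of_forall (fun x => ?_))
    · exact ((V_cont.comp cW).sub continuous_const).aestronglyMeasurable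
    · rw [Real.norm_eq_abs]
      have := hbw x (by simp)
      rw [Complex.norm_real, Real.norm_eq_abs, sq_abs, div_eq_mul_inv] at this
      exact this
  obtain ⟨hPi, -⟩ := PPE_L1 f hf δ hδ
  have hPn : Integrable (fun x => ‖PPE f δ x‖) := hPi.norm
  have hSi : Integrable (S.indicator (fun _ => U0)) :=
    (integrable_indicator_iff hSm).2 (integrableOn_const hSf)
  have hle : ∀ x : ℝ, V (W x) - U0 ≤ ‖PPE f δ x‖ - S.indicator (fun _ => U0) x := by
    intro x
    obtain ⟨h1, h2⟩ := V_upperF (fun j => F j x)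
    have hWx : V (W x) = V (∑ j, F j x ^ 2) := by rw [hW]
    rw [← hP, ← hWx] at h1
    rw [← hP, ← hQ, ← hWx] at h2
    by_cases hx : x ∈ S
    · rw [Set.indicator_of_mem hx]
      have := h2 (by rw [hS] at hx; exact hx)
      linarith
    · rw [Set.indicator_of_notMem hx]
      linarith
  have hint : (∫ x : ℝ, V (W x) - U0) ≤ (∫ x, ‖PPE f δ x‖) - volume.real S * U0 := by
    calc _ ≤ ∫ x : ℝ, ‖PPE f δ x‖ - S.indicator (fun _ => U0) x :=
          integral_mono hih (hPn.sub hSi) hle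
      _ = (∫ x, ‖PPE f δ x‖) - ∫ x, S.indicator (fun _ => U0) x := integral_sub hPn hSi
      _ = _ := by
          rw [integral_indicator hSm, setIntegral_const, smul_eq_mul]
  have hfin : U0 * volume.real S ≤ ∫ x, ‖PPE f δ x‖ := by
    have h0 : 0 ≤ ∫ x : ℝ, V (W x) - U0 := hHP
    linarith
  calc ENNReal.ofReal U0 * volume S = ENNReal.ofReal U0 * ENNReal.ofReal (volume.real S) := by
        rw [Measure.real, ENNReal.ofReal_toReal hSf]
    _ = ENNReal.ofReal (U0 * volume.real S) := (ENNReal.ofReal_mul hU0).symm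
    _ ≤ _ := ENNReal.ofReal_le_ofReal hfin

end Pool.Agent.Y245.Dav
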