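import Pool.Agent.Helper458.Dav.P_final
import Pool.Agent.Y245.Dav.LevelE

set_option autoImplicit false

open MeasureTheory Filter Topology Set Metric
open scoped Real ENNReal

namespace Pool.Agent.Y245.Dav

open Pool.Dav

universe u

section limits

variable {E : Type u} [NormedAddCommGroup E] [NormedSpace ℝ E]

/-- the level estimate passes to limits in `L¹` -/
theorem level_limit (f : ℝ → E) (hf : Integrable f) (fn : ℕ → ℝ → E)
    (hfn : ∀ n, Integrable (fn n))
    (hlim : Tendsto (fun n => ∫ t, ‖f t - fn n t‖) atTop (𝓝 0)) (δ : ℝ) (hδ : 0 < δ)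
    (hlev : ∀ n, ENNReal.ofReal U0 * volume {x : ℝ | 1 < ‖QQE (fn n) δ x‖}
      ≤ ENNReal.ofReal (∫ x, ‖fn n x‖)) :
    ENNReal.ofReal U0 * volume {x : ℝ | 1 < ‖QQE f δ x‖} ≤ ENNReal.ofReal (∫ x, ‖f x‖) := by
  obtain ⟨S, hS⟩ : ∃ S : ℕ → Set ℝ, ∀ n, S n = {x : ℝ | 1 < ‖QQE (fn n) δ x‖} := ⟨_, fun _ => rfl⟩
  have hQ : ∀ x, Tendsto (fun n => QQE (fn n) δ x) atTop (𝓝 (QQE f δ x)) := by
    intro x
    rw [tendsto_iff_norm_sub_tendsto_zero]
    have h1 := hlim.const_mul (π⁻¹ * (1 / (2 * δ)))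
    rw [mul_zero] at h1
    refine squeeze_zero (fun n => norm_nonneg _) (fun n => ?_) h1
    rw [norm_sub_rev]
    exact QQE_sub f (fn n) hf (hfn n) δ hδ x
  have hN : Tendsto (fun n => ∫ t, ‖fn n t‖) atTop (𝓝 (∫ t, ‖f t‖)) := by
    rw [tendsto_iff_norm_sub_tendsto_zero]
    refine squeeze_zero (fun n => norm_nonneg _) (fun n => ?_) hlim
    rw [← integral_sub (hfn n).norm hf.norm]
    refine (norm_integral_le_integral_norm _).trans ?_
    refine integral_mono_of_nonneg (Filter.Eventually.of_forall fun t => norm_nonneg _)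
      (hf.sub (hfn n)).norm (Filter.Eventually.of_forall fun t => ?_)
    simp only [Real.norm_eq_abs]
    rw [norm_sub_rev]
    exact abs_norm_sub_norm_le _ _
  have hmono : Monotone (fun n : ℕ => ⋂ k ≥ n, S k) := by
    intro m n hmn
    apply Set.iInter₂_mono'
    intro k hk
    exact ⟨k, hmn.trans hk, le_rfl⟩
  have hsub : {x : ℝ | 1 < ‖QQE f δ x‖} ⊆ ⋃ n : ℕ, ⋂ k ≥ n, S k := by
    intro x hx
    have h2 := (hQ x).norm.eventually (lt_mem_nhds (show 1 < ‖QQE f δ x‖ from hx))
    obtain ⟨N, hN⟩ := eventually_atTop.1 h2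
    refine Set.mem_iUnion.2 ⟨N, Set.mem_iInter₂.2 fun k hk => ?_⟩
    rw [hS]
    exact hN k hk
  calc ENNReal.ofReal U0 * volume {x : ℝ | 1 < ‖QQE f δ x‖}
      ≤ ENNReal.ofReal U0 * volume (⋃ n : ℕ, ⋂ k ≥ n, S k) := by
        gcongr
    _ = ⨆ n : ℕ, ENNReal.ofReal U0 * volume (⋂ k ≥ n, S k) := by
        rw [hmono.measure_iUnion, ENNReal.mul_iSup]
    _ ≤ ENNReal.ofReal (∫ x, ‖f x‖) := by
        refine iSup_le fun n => ?_
        refine ge_of_tendsto (ENNReal.tendsto_ofReal hN) ?_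
        filter_upwards [eventually_ge_atTop n] with k hk
        refine le_trans ?_ (hlev k)
        gcongr
        refine (Set.iInter₂_subset k hk).trans ?_
        rw [hS]

end limits

variable {E : Type u} [NormedAddCommGroup E] [InnerProductSpace ℝ E] [CompleteSpace E]

/-- finite-dimensional range, bounded support -/
theorem level_fin_bdd (F : Submodule ℝ E) [FiniteDimensional ℝ F] (f : ℝ → E) (hf : Integrable f)
    (hF : ∀ t, f t ∈ F) (R : ℝ) (hR : ∀ t, R < |t| → f t = 0) (δ : ℝ) (hδ : 0 < δ) :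
    ENNReal.ofReal U0 * volume {x : ℝ | 1 < ‖QQE f δ x‖} ≤ ENNReal.ofReal (∫ x, ‖f x‖) := by
  set b := stdOrthonormalBasis ℝ F with hb
  set T : EuclideanSpace ℝ (Fin (Module.finrank ℝ F)) →ₗᵢ[ℝ] E :=
    F.subtypeₗᵢ.comp b.repr.symm.toLinearIsometry with hT
  set S : E →L[ℝ] EuclideanSpace ℝ (Fin (Module.finrank ℝ F)) :=
    (b.repr.toContinuousLinearEquiv : F →L[ℝ] _).comp F.orthogonalProjectionOnto with hS
  have hTS : ∀ v ∈ F, T (S v) = v := by
    intro v hv
    have h1 : F.orthogonalProjectionOnto v = ⟨v, hv⟩ := by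
      apply Subtype.ext
      exact Submodule.starProjection_eq_self_iff.2 hv
    show ((b.repr.symm (b.repr (F.orthogonalProjectionOnto v)) : F) : E) = v
    rw [LinearIsometryEquiv.symm_apply_apply, h1]
  set g : ℝ → EuclideanSpace ℝ (Fin (Module.finrank ℝ F)) := fun t => S (f t) with hg
  have hgi : Integrable g := S.integrable_comp hf
  have hfg : ∀ t, f t = T (g t) := fun t => (hTS _ (hF t)).symm
  have hgR : ∀ t, R < |t| → g t = 0 := by
    intro t ht
    show S (f t) = 0
    rw [hR t ht, map_zero]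
  have hnorm : ∀ t, ‖g t‖ = ‖f t‖ := by
    intro t
    rw [hfg t, T.norm_map]
  have hQ : ∀ x, ‖QQE f δ x‖ = ‖QQE g δ x‖ := by
    intro x
    have h1 : QQE f δ x = T (QQE g δ x) := by
      have h2 := T.toContinuousLinearMap.integral_comp_comm (QQE_int g hgi δ hδ x)
      unfold QQE
      refine Eq.trans ?_ h2
      refine integral_congr_ae (Filter.Eventually.of_forall fun t => ?_)
      simp only
      rw [map_smul, hfg t]
      rfl
    rw [h1, T.norm_map]
  have h3 := levelF g hgi R hgR δ hδ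
  have h4 : {x : ℝ | 1 < ‖QQE f δ x‖} ⊆ {x : ℝ | 1 ≤ ‖QQE g δ x‖} := by
    intro x hx
    have hx' : 1 < ‖QQE f δ x‖ := hx
    rw [hQ] at hx'
    exact hx'.le
  calc ENNReal.ofReal U0 * volume {x : ℝ | 1 < ‖QQE f δ x‖}
      ≤ ENNReal.ofReal U0 * volume {x : ℝ | 1 ≤ ‖QQE g δ x‖} := by gcongr
    _ ≤ ENNReal.ofReal (∫ x, ‖PPE g δ x‖) := h3
    _ ≤ ENNReal.ofReal (∫ x, ‖g x‖) := ENNReal.ofReal_le_ofReal (PPE_L1 g hgi δ hδ).2
    _ = ENNReal.ofReal (∫ x, ‖f x‖) := by simp only [hnorm]

/-- finite-dimensional range -/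
theorem level_fin (F : Submodule ℝ E) [FiniteDimensional ℝ F] (f : ℝ → E) (hf : Integrable f)
    (hF : ∀ t, f t ∈ F) (δ : ℝ) (hδ : 0 < δ) :
    ENNReal.ofReal U0 * volume {x : ℝ | 1 < ‖QQE f δ x‖} ≤ ENNReal.ofReal (∫ x, ‖f x‖) := by
  have hms : ∀ n : ℕ, MeasurableSet ({t : ℝ | |t| ≤ n} : Set ℝ) := fun n =>
    measurableSet_le (by fun_prop) measurable_const
  refine level_limit f hf (fun n => ({t : ℝ | |t| ≤ n} : Set ℝ).indicator f)
    (fun n => hf.indicator (hms n)) ?_ δ hδ ?_
  · have h0 : Tendsto (fun n : ℕ => ∫ t, ‖f t - ({t : ℝ | |t| ≤ n} : Set ℝ).indicator f t‖) atTop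
        (𝓝 (∫ _ : ℝ, (0 : ℝ))) := by
      refine tendsto_integral_of_dominated_convergence (fun t => 2 * ‖f t‖) ?_ ?_ ?_ ?_
      · intro n
        exact (hf.aestronglyMeasurable.sub (hf.aestronglyMeasurable.indicator (hms n))).norm
      · exact hf.norm.const_mul _
      · intro n
        refine Eventually.of_forall fun t => ?_
        rw [norm_norm]
        refine (norm_sub_le _ _).trans ?_
        have := norm_indicator_le_norm_self (s := ({t : ℝ | |t| ≤ n} : Set ℝ)) f t
        linarith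
      · refine Eventually.of_forall fun t => ?_
        apply tendsto_const_nhds.congr'
        obtain ⟨N, hN⟩ := exists_nat_ge |t|
        filter_upwards [eventually_ge_atTop N] with n hn
        rw [Set.indicator_of_mem, sub_self, norm_zero]
        show |t| ≤ n
        exact hN.trans (by exact_mod_cast hn)
    rwa [integral_zero] at h0
  · intro n
    refine level_fin_bdd F _ (hf.indicator (hms n)) ?_ n ?_ δ hδ
    · intro t
      by_cases h : t ∈ ({t : ℝ | |t| ≤ n} : Set ℝ)
      · rw [Set.indicator_of_mem h]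
        exact hF t
      · rw [Set.indicator_of_notMem h]
        exact F.zero_mem
    · intro t ht
      rw [Set.indicator_of_notMem]
      intro h
      exact absurd ht (not_lt.2 h)

/-- all integrable functions with values in a real inner product space -/
theorem level_all (f : ℝ → E) (hf : Integrable f) (δ : ℝ) (hδ : 0 < δ) :
    ENNReal.ofReal U0 * volume {x : ℝ | 1 < ‖QQE f δ x‖} ≤ ENNReal.ofReal (∫ x, ‖f x‖) := by
  have hm : MemLp f 1 (volume : Measure ℝ) := memLp_one_iff_integrable.2 hf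
  have hex : ∀ n : ℕ, ∃ g : SimpleFunc ℝ E,
      eLpNorm (f - ⇑g) 1 (volume : Measure ℝ) < ENNReal.ofReal (1 / ((n : ℝ) + 1)) ∧
        MemLp g 1 (volume : Measure ℝ) := fun n =>
    hm.exists_simpleFunc_eLpNorm_sub_lt ENNReal.one_ne_top
      (by
        have : (0 : ℝ) < 1 / ((n : ℝ) + 1) := by positivity
        exact (ENNReal.ofReal_pos.2 this).ne')
  choose g hg1 hg2 using hex
  have hgi : ∀ n, Integrable (g n) (volume : Measure ℝ) := fun n =>
    memLp_one_iff_integrable.1 (hg2 n)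
  refine level_limit f hf (fun n => g n) hgi ?_ δ hδ ?_
  · refine squeeze_zero (fun n => integral_nonneg fun t => norm_nonneg _) (fun n => ?_)
      tendsto_one_div_add_atTop_nhds_zero_nat
    have h1 := hg1 n
    rw [eLpNorm_one_eq_lintegral_enorm] at h1
    have h3 : ∫ t, ‖f t - g n t‖ = (∫⁻ t, ‖f t - g n t‖ₑ).toReal :=
      integral_norm_eq_lintegral_enorm (hf.sub (hgi n)).aestronglyMeasurable
    rw [h3]
    have h2 : (∫⁻ t, ‖f t - g n t‖ₑ) ≤ ENNReal.ofReal (1 / ((n : ℝ) + 1)) := h1.le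
    exact ENNReal.toReal_le_of_le_ofReal (by positivity) h2
  · intro n
    have hfd : FiniteDimensional ℝ (Submodule.span ℝ (Set.range (g n))) :=
      FiniteDimensional.span_of_finite ℝ (g n).finite_range
    exact level_fin (Submodule.span ℝ (Set.range (g n))) (g n) (hgi n)
      (fun t => Submodule.subset_span ⟨t, rfl⟩) δ hδ

theorem upperE (f : ℝ → E) (hf : Integrable f) (lam : ℝ) (hlam : 0 < lam) :
    ENNReal.ofReal U0 * (ENNReal.ofReal lam * volume {x : ℝ | lam < ‖hilbertE f x‖})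
      ≤ ENNReal.ofReal (∫ x, ‖f x‖) := by
  set g : ℝ → E := fun y => lam⁻¹ • f y with hg
  have hgi : Integrable g := hf.smul _
  have hQg : ∀ δ x, QQE g δ x = lam⁻¹ • QQE f δ x := fun δ x => QQE_smul f lam⁻¹ δ x
  have hnormQ : ∀ δ x, ‖QQE g δ x‖ = ‖QQE f δ x‖ / lam := by
    intro δ x
    rw [hQg, norm_smul, norm_inv, Real.norm_eq_abs, abs_of_pos hlam, div_eq_inv_mul]
  have hnormg : ∫ x, ‖g x‖ = (∫ x, ‖f x‖) / lam := by
    rw [div_eq_inv_mul, ← integral_const_mul]
    congr 1
    ext x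
    simp only [hg]
    rw [norm_smul, norm_inv, Real.norm_eq_abs, abs_of_pos hlam]
  have hd : Tendsto (fun n : ℕ => (1 : ℝ) / ((n : ℝ) + 1)) atTop (𝓝[>] (0 : ℝ)) := by
    refine tendsto_nhdsWithin_iff.2 ⟨tendsto_one_div_add_atTop_nhds_zero_nat, ?_⟩
    exact Eventually.of_forall (fun n => by
      show (0 : ℝ) < 1 / ((n : ℝ) + 1)
      positivity)
  set A : ℕ → Set ℝ := fun n => {x : ℝ | 1 < ‖QQE g (1 / ((n : ℝ) + 1)) x‖} with hA
  have hAn : ∀ n, ENNReal.ofReal U0 * volume (A n) ≤ ENNReal.ofReal ((∫ x, ‖f x‖) / lam) := by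
    intro n
    have h := level_all g hgi (1 / ((n : ℝ) + 1)) (by positivity)
    rw [hnormg] at h
    exact h
  have hsub : volume {x : ℝ | lam < ‖hilbertE f x‖} ≤ volume (⋃ n : ℕ, ⋂ m : ℕ, A (n + m)) := by
    apply measure_mono_ae
    filter_upwards [trunc_aeE f hf] with x hx hxS
    have hxS' : lam < ‖hilbertE f x‖ := hxS
    have hex : ∃ v, HasHilbertE f x v := by
      by_contra hne
      have h0 : hilbertE f x = 0 := by
        unfold hilbertE
        rw [dif_neg hne]
      rw [h0, norm_zero] at hxS'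
      linarith
    have hval : HasHilbertE f x (hilbertE f x) := by
      have h1 : hilbertE f x = hex.choose := by
        unfold hilbertE
        rw [dif_pos hex]
      rw [h1]
      exact hex.choose_spec
    have hlimQ : Tendsto (fun δ : ℝ => QQE f δ x) (𝓝[>] (0 : ℝ)) (𝓝 (hilbertE f x)) := by
      have h1 := hx.add hval
      simp only [sub_add_cancel, zero_add] at h1
      exact h1
    have hlimn := (hlimQ.comp hd).norm
    have hev := hlimn.eventually (lt_mem_nhds hxS')
    obtain ⟨N, hN⟩ := eventually_atTop.1 hev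
    show x ∈ ⋃ n : ℕ, ⋂ m : ℕ, A (n + m)
    refine mem_iUnion.2 ⟨N, mem_iInter.2 fun m => ?_⟩
    have h2 := hN (N + m) (Nat.le_add_right N m)
    simp only [Function.comp_apply] at h2
    show 1 < ‖QQE g (1 / (((N + m : ℕ) : ℝ) + 1)) x‖
    rw [hnormQ, lt_div_iff₀ hlam, one_mul]
    exact h2
  have hdir : Directed (· ⊆ ·) (fun n : ℕ => ⋂ m : ℕ, A (n + m)) := by
    apply Monotone.directed_le
    intro a b hab x hxa
    obtain ⟨c, rfl⟩ := Nat.exists_eq_add_of_le hab
    have hxa' := mem_iInter.1 hxa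
    refine mem_iInter.2 fun m => ?_
    have := hxa' (c + m)
    rwa [← Nat.add_assoc] at this
  have hU : ENNReal.ofReal U0 * volume (⋃ n : ℕ, ⋂ m : ℕ, A (n + m))
      ≤ ENNReal.ofReal ((∫ x, ‖f x‖) / lam) := by
    rw [hdir.measure_iUnion, ENNReal.mul_iSup]
    refine iSup_le fun n => ?_
    refine le_trans ?_ (hAn n)
    gcongr
    refine (iInter_subset _ 0).trans ?_
    simp
  calc ENNReal.ofReal U0 * (ENNReal.ofReal lam * volume {x : ℝ | lam < ‖hilbertE f x‖})
      = ENNReal.ofReal lam * (ENNReal.ofReal U0 * volume {x : ℝ | lam < ‖hilbertE f x‖}) := by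
        ring
    _ ≤ ENNReal.ofReal lam * (ENNReal.ofReal U0 * volume (⋃ n : ℕ, ⋂ m : ℕ, A (n + m))) := by
        gcongr
    _ ≤ ENNReal.ofReal lam * ENNReal.ofReal ((∫ x, ‖f x‖) / lam) := by
        gcongr
    _ = ENNReal.ofReal (∫ x, ‖f x‖) := by
        rw [← ENNReal.ofReal_mul hlam.le]
        congr 1
        field_simp

/-- The weak-type `(1,1)` constant of the Hilbert transform on `L¹(ℝ, E)`: the supremum of
`λ |{x : |Hf(x)| > λ}| / ‖f‖₁` over `λ > 0` and `0 ≠ f ∈ L¹(ℝ, E)`. -/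
noncomputable def weakConst (E : Type u) [NormedAddCommGroup E] [NormedSpace ℝ E] : ℝ≥0∞ :=
  ⨆ (f : ℝ → E) (_ : Integrable f) (_ : ¬ f =ᵐ[volume] 0) (lam : ℝ) (_ : 0 < lam),
    ENNReal.ofReal lam * volume {x : ℝ | lam < ‖hilbertE f x‖} / ENNReal.ofReal (∫ x, ‖f x‖)

theorem weakConst_le : weakConst E ≤ ENNReal.ofReal (1 / U0) := by
  have hU := const_eq.1
  refine iSup_le fun f => iSup_le fun hf => iSup_le fun _ => iSup_le fun lam => iSup_le fun hlam => ?_
  apply ENNReal.div_le_of_le_mul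
  have h1 := mul_le_mul_right (upperE f hf lam hlam) (ENNReal.ofReal (1 / U0))
  rw [← mul_assoc, ← ENNReal.ofReal_mul (by positivity), one_div_mul_cancel hU.ne',
    ENNReal.ofReal_one, one_mul] at h1
  exact h1

theorem trunc_real (f : ℝ → ℝ) (e : E) (ε x : ℝ) :
    truncHE (fun y => f y • e) ε x = (truncH (fun y => (f y : ℂ)) ε x).re • e ∧
    (truncH (fun y => (f y : ℂ)) ε x).im = 0 := by
  have h1 : truncH (fun y => (f y : ℂ)) ε x
      = ((π⁻¹ * ∫ y in {y : ℝ | ε < |x - y|}, (x - y)⁻¹ * f y : ℝ) : ℂ) := by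
    unfold truncH
    rw [Complex.ofReal_mul, ← integral_complex_ofReal]
    congr 1
    · push_cast
      rw [one_div]
    · congr 1
      funext y
      push_cast
      rw [div_eq_mul_inv, mul_comm]
  constructor
  · rw [h1, Complex.ofReal_re]
    unfold truncHE
    have h2 : (fun y => (x - y)⁻¹ • f y • e) = fun y => ((x - y)⁻¹ * f y) • e := by
      funext y
      rw [smul_smul]
    rw [h2, integral_smul_const, smul_smul]
  · rw [h1, Complex.ofReal_im]

theorem le_weakConst [Nontrivial E] : weakConstR ≤ weakConst E := by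
  obtain ⟨e, he⟩ : ∃ e : E, ‖e‖ = 1 := by
    obtain ⟨v, hv⟩ := exists_ne (0 : E)
    refine ⟨‖v‖⁻¹ • v, ?_⟩
    rw [norm_smul, norm_inv, norm_norm, inv_mul_cancel₀ (norm_ne_zero_iff.2 hv)]
  have he0 : e ≠ 0 := by
    intro h
    rw [h, norm_zero] at he
    exact zero_ne_one he
  refine iSup_le fun f => iSup_le fun hf => iSup_le fun hne => iSup_le fun lam =>
    iSup_le fun hlam => ?_
  have hnorm : (∫ x, ‖f x • e‖) = ∫ x, |f x| := by
    congr 1
    funext x
    rw [norm_smul, he, mul_one, Real.norm_eq_abs]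
  have hsub : {x : ℝ | lam < ‖hilbert (fun y => (f y : ℂ)) x‖} ⊆
      {x : ℝ | lam < ‖hilbertE (fun y => f y • e) x‖} := by
    intro x hx
    have hx' : lam < ‖hilbert (fun y => (f y : ℂ)) x‖ := hx
    have hex : ∃ v, HasHilbert (fun y => (f y : ℂ)) x v := by
      by_contra hne
      have h0 : hilbert (fun y => (f y : ℂ)) x = 0 := by
        unfold hilbert
        rw [dif_neg hne]
      rw [h0, norm_zero] at hx'
      linarith
    have hval : HasHilbert (fun y => (f y : ℂ)) x (hilbert (fun y => (f y : ℂ)) x) := by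
      have h1 : hilbert (fun y => (f y : ℂ)) x = hex.choose := by
        unfold hilbert
        rw [dif_pos hex]
      rw [h1]
      exact hex.choose_spec
    set v := hilbert (fun y => (f y : ℂ)) x with hv
    have him : v.im = 0 := by
      have h1 := (Complex.continuous_im.tendsto v).comp hval
      have h2 : (Complex.im ∘ fun ε : ℝ => truncH (fun y => (f y : ℂ)) ε x) = fun _ => 0 := by
        funext ε
        exact (trunc_real f e ε x).2
      rw [h2] at h1
      exact tendsto_nhds_unique h1 tendsto_const_nhds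
    have hE : HasHilbertE (fun y => f y • e) x (v.re • e) := by
      have h1 := ((Complex.continuous_re.tendsto v).comp hval).smul_const e
      refine h1.congr fun ε => ?_
      exact ((trunc_real f e ε x).1).symm
    have hexE : ∃ w, HasHilbertE (fun y => f y • e) x w := ⟨_, hE⟩
    have hvalE : hilbertE (fun y => f y • e) x = v.re • e := by
      have h1 : hilbertE (fun y => f y • e) x = hexE.choose := by
        unfold hilbertE
        rw [dif_pos hexE]
      rw [h1]
      exact tendsto_nhds_unique hexE.choose_spec hE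
    show lam < ‖hilbertE (fun y => f y • e) x‖
    rw [hvalE, norm_smul, he, mul_one, Real.norm_eq_abs]
    have h3 : ‖v‖ = |v.re| := by
      have : v = ((v.re : ℝ) : ℂ) := by
        apply Complex.ext
        · simp
        · simp [him]
      rw [this, Complex.norm_real, Real.norm_eq_abs, Complex.ofReal_re]
    rw [← h3]
    exact hx'
  refine le_iSup_of_le (fun y => f y • e) (le_iSup_of_le (hf.smul_const e) (le_iSup_of_le ?_
    (le_iSup_of_le lam (le_iSup_of_le hlam ?_))))
  · intro h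
    apply hne
    filter_upwards [h] with x hx
    have hx' : f x • e = 0 := hx
    rcases smul_eq_zero.1 hx' with h1 | h1
    · exact h1
    · exact absurd h1 he0
  · rw [hnorm]
    gcongr

theorem mainE (E : Type u) [NormedAddCommGroup E] [InnerProductSpace ℝ E] [CompleteSpace E]
    [Nontrivial E] :
    weakConst E = ENNReal.ofReal ((∑' k : ℕ, (1 : ℝ) / (2 * k + 1) ^ 2)
      / ∑' k : ℕ, (-1 : ℝ) ^ k / (2 * k + 1) ^ 2) := by
  rw [← const_eq.2]
  refine le_antisymm weakConst_le (le_trans ?_ le_weakConst)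
  rw [final.2, ← const_eq.2]

end Pool.Agent.Y245.Dav
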